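import Pool.Agent.H80.S6C.Ent
import Pool.Agent.H80.S6C.Cls
import Pool.Agent.H52.K2.RG
import Pool.Agent.H13.K2S.Rows

/-!
# Base form of the rates and of the tail

In a subclass the rates of the positions hold for all events with small defect, without
stability. At the Pliss rows the tail bound follows, for all rows at once.
-/

set_option autoImplicit false

namespace Pool.S6C

open Finset Real
open Pool.Agent.H49.Ent Pool.Agent.H32.Dense Pool.STK Pool.KA Pool.K2S Pool.PB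

variable {m : ℕ}

/-- A statement about all events with small defect, without stability. -/
def Bas (S : PCl m) (Φ : Stat m) : Prop :=
  ∃ τ : ℝ, 0 < τ ∧ ∃ J₁ : ℕ, ∀ J ≥ J₁, ∀ (F : Fam m J) (A : F.Ω → Prop), S.St τ J F A → Φ J F A

theorem Bas.clp {S : PCl m} {Φ : Stat m} (h : Bas S Φ) : Clp S Φ := by
  obtain ⟨τ, hτ, J₁, h⟩ := h
  exact Clp.base τ hτ J₁ h

theorem Bas.mono {S : PCl m} {Φ Ψ : Stat m} (J₂ : ℕ) (h : Bas S Φ)
    (hΨ : ∀ J ≥ J₂, ∀ (F : Fam m J) (A : F.Ω → Prop), Φ J F A → Ψ J F A) : Bas S Ψ := by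
  obtain ⟨τ, hτ, J₁, h⟩ := h
  exact ⟨τ, hτ, max J₁ J₂, fun J hJ F A hA => hΨ J ((le_max_right _ _).trans hJ) F A
    (h J ((le_max_left _ _).trans hJ) F A hA)⟩

theorem Bas.and {S : PCl m} {Φ Ψ : Stat m} (h : Bas S Φ) (h' : Bas S Ψ) :
    Bas S (fun J F A => Φ J F A ∧ Ψ J F A) := by
  obtain ⟨τ, hτ, J₁, h⟩ := h
  obtain ⟨τ', hτ', J₁', h'⟩ := h'
  exact ⟨min τ τ', lt_min hτ hτ', max J₁ J₁', fun J hJ F A hA =>
    ⟨h J ((le_max_left _ _).trans hJ) F A (S.mono (min_le_left _ _) hA),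
      h' J ((le_max_right _ _).trans hJ) F A (S.mono (min_le_right _ _) hA)⟩⟩

theorem Bas.all {S : PCl m} : ∀ (n : ℕ) {Φ : ℕ → Stat m}, (∀ i < n, Bas S (Φ i)) →
    Bas S (fun J F A => ∀ i < n, Φ i J F A)
  | 0, _, _ => ⟨1, one_pos, 0, fun _ _ _ _ _ i hi => absurd hi (Nat.not_lt_zero i)⟩
  | n + 1, Φ, h => by
    refine Bas.mono 0 ((Bas.all n fun i hi => h i (by omega)).and (h n (by omega))) ?_
    rintro J - F A ⟨h1, h2⟩ i hi
    rcases Nat.lt_or_ge i n with h3 | h3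
    · exact h1 i h3
    · have : i = n := by omega
      rw [this]
      exact h2

theorem Bas.sub {S S' : PCl m} (hs : ∀ (τ : ℝ) (J : ℕ) (F : Fam m J) (A : F.Ω → Prop),
    S'.St τ J F A → S.St τ J F A) {Φ : Stat m} (h : Bas S Φ) : Bas S' Φ := by
  obtain ⟨τ, hτ, J₁, h⟩ := h
  exact ⟨τ, hτ, J₁, fun J hJ F A hA => h J hJ F A (hs τ J F A hA)⟩

/-- Negative claims about hereditary properties are base statements. -/
theorem Bas.neg {S : PCl m} {Q : Stat m} (hQ : ∀ (J : ℕ) (F : Fam m J), Hered (Q J F))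
    (hc : Clp S (fun J F A => ¬ Q J F A)) : Bas S (fun J F A => ¬ Q J F A) := by
  obtain ⟨c, hc0, J₁, h⟩ := Clp.neg_base hQ hc
  exact ⟨c, hc0, J₁, h⟩

/-- The threshold of the number of values is the entropy, base form. -/
theorem ent_base {β : ∀ J : ℕ, Fam m J → Type} {Y : ∀ (J : ℕ) (F : Fam m J), F.Ω → β J F}
    {S : PCl m} (hpos : ∀ (τ : ℝ) (J : ℕ) (F : Fam m J) (A : F.Ω → Prop), S.St τ J F A →
      0 < Pe F.p A) {s : ℝ} (h1 : ∀ h : ℝ, 0 < h → Bas S (qCnt Y (s - h)))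
    (h2 : ∀ h : ℝ, 0 < h → Bas S (fun J F A => ¬ qCnt Y (s + h) J F A)) (h : ℝ) (hh : 0 < h) :
    Bas S (fun J F A => |H (Pool.Agent.H49.Ent.cond F.p A True) (Y J F) - (-s) * J| ≤ h * J) := by
  have hpc : Bas S (fun _ F A => 0 < Pe F.p A) := ⟨1, one_pos, 0, fun J _ F A hA =>
    hpos 1 J F A hA⟩
  have up : Bas S (fun J F A => H (Pool.Agent.H49.Ent.cond F.p A True) (Y J F) ≤
      (-s + h) * J) := by
    refine Bas.mono 0 (hpc.and (h1 h hh)) ?_
    rintro J - F A ⟨hA, hq⟩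
    refine (H_le_cnt F.isLaw (Y J F) hA).trans ?_
    have h1 : (1 : ℝ) ≤ cnt F.p (Y J F) A := by exact_mod_cast one_le_cnt F.isLaw (Y J F) hA
    have h2 := Real.log_le_log (by linarith) hq
    rw [Real.log_exp] at h2
    linarith
  have lo : Bas S (fun J F A => (-s - h) * J ≤
      H (Pool.Agent.H49.Ent.cond F.p A True) (Y J F)) := by
    obtain ⟨c, hc, J₂, hn⟩ := h2 (h / 2) (half_pos hh)
    obtain ⟨κ, hκe⟩ : ∃ κ, κ = c / 2 := ⟨_, rfl⟩
    have hκ : 0 < κ := by rw [hκe]; linarith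
    obtain ⟨C, hC⟩ : ∃ C, C = max 1 (2 * |s| / h) := ⟨_, rfl⟩
    have hC1 : 1 ≤ C := by rw [hC]; exact le_max_left _ _
    have hC2 : 2 * |s| / h ≤ C := by rw [hC]; exact le_max_right _ _
    obtain ⟨J₁, hJ₁⟩ := exp_small' hκ hC1
    refine ⟨κ, hκ, max J₁ J₂, fun J hJ F A hSt => ?_⟩
    have hA := hpos κ J F A hSt
    have hJ0 : (0 : ℝ) ≤ J := Nat.cast_nonneg J
    have hcl := isLaw_cond F.isLaw hA
    by_cases hneg : -s - h / 2 ≤ 0
    · refine le_trans ?_ (H_nonneg hcl.nonneg hcl.sum_one _)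
      exact mul_nonpos_of_nonpos_of_nonneg (by linarith) hJ0
    push Not at hneg
    obtain ⟨M, hM⟩ : ∃ M, M = Real.exp (-((s + h / 2) * J)) := ⟨_, rfl⟩
    have hM1 : 1 ≤ M := by
      rw [hM, Real.one_le_exp_iff]
      have : 0 ≤ (-s - h / 2) * J := mul_nonneg hneg.le hJ0
      linarith
    have key := H_ge_cnt F.isLaw (Y J F) hA (κ := κ * J) hM1 (by
      intro B hB hP
      have hSB : S.St c J F B := S.mono (by linarith) (S.res hκ.le hSt hB hP)
      have := hn J ((le_max_right _ _).trans hJ) F B hSB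
      unfold qCnt at this
      rw [hM]
      exact not_le.1 this)
    refine le_trans ?_ key
    have hlM : Real.log M = (-s - h / 2) * J := by
      rw [hM, Real.log_exp]
      ring
    rw [hlM]
    have e1 := hJ₁ J ((le_max_left _ _).trans hJ)
    have hC0 : 0 < C := by linarith
    have e2 : Real.exp (-(κ * J)) * ((-s - h / 2) * J) ≤ 1 / C * ((-s - h / 2) * J) :=
      mul_le_mul_of_nonneg_right e1 (mul_nonneg hneg.le hJ0)
    have e3 : 1 / C * ((-s - h / 2) * J) ≤ h / 2 * J := by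
      have a1 : -s - h / 2 ≤ |s| := by
        have := neg_abs_le s
        linarith
      have a2 : |s| ≤ h / 2 * C := by
        rw [div_le_iff₀ hh] at hC2
        linarith
      have a3 : 1 / C * (-s - h / 2) ≤ h / 2 := by
        rw [one_div, inv_mul_le_iff₀ hC0]
        linarith
      calc 1 / C * ((-s - h / 2) * J) = 1 / C * (-s - h / 2) * J := by ring
        _ ≤ h / 2 * J := mul_le_mul_of_nonneg_right a3 hJ0
    nlinarith
  refine Bas.mono 0 (up.and lo) ?_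
  rintro J - F A ⟨h1, h2⟩
  rw [abs_le]
  constructor <;> nlinarith

/-- **Entropies as numbers, base form.** -/
theorem ext_ent_base {S : PCl m} (hS : S.Ne)
    (hpos : ∀ (τ : ℝ) (J : ℕ) (F : Fam m J) (A : F.Ω → Prop), S.St τ J F A → 0 < Pe F.p A)
    (β : ℕ → ∀ J : ℕ, Fam m J → Type) (Y : ∀ (i J : ℕ) (F : Fam m J), F.Ω → β i J F)
    (M : ℕ → ℝ) (hM : ∀ i, Bas S (fun J F A => (cnt F.p (Y i J F) A : ℝ) ≤ Real.exp (M i * J))) :
    ∃ S' : PCl m, S'.Ne ∧
      (∀ (τ : ℝ) (J : ℕ) (F : Fam m J) (A : F.Ω → Prop), S'.St τ J F A → S.St τ J F A) ∧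
      ∀ i, ∃ η : ℝ, ∀ h : ℝ, 0 < h → Bas S' (fun J F A =>
        |H (Pool.Agent.H49.Ent.cond F.p A True) (Y i J F) - η * J| ≤ h * J) := by
  have hlo : ∀ i, Bas S (qCnt (Y i) (-M i)) := fun i => Bas.mono 0 (hM i) fun J _ F A hA => by
    unfold qCnt
    refine hA.trans (Real.exp_le_exp.2 (le_of_eq (by ring)))
  obtain ⟨S', h1, h2, -, h4⟩ := hS.diag
    (fun n S₁ P => ∃ s : ℝ, PNum (S₁.sl P) (qCnt (Y n)) s ∧
      P.P = (fun τ J F A => qCnt (Y n) (s - τ) J F A ∨ s - τ ≤ -M n)) (by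
    intro n S₁ hle hn
    obtain ⟨s, -, -, P, hP, hs, hPe⟩ := hn.num (qCnt (Y n)) (fun s J F => qCnt.hered _ s J F)
      (fun s s' J F A h hA => qCnt.anti _ s s' J F A h hA)
      (a := -M n) (b := 1) ((hlo n).clp.le hle)
      ((Clp.of one_pos 1 fun J hJ F A hA hq => by
        have a1 : (1 : ℝ) ≤ cnt F.p (Y n J F) A := by
          exact_mod_cast one_le_cnt F.isLaw (Y n J F) (hpos 1 J F A hA)
        unfold qCnt at hq
        have a2 : Real.exp (-(1 * (J : ℝ))) < 1 := by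
          rw [Real.exp_lt_one_iff]
          have : (1 : ℝ) ≤ J := by exact_mod_cast hJ
          linarith
        linarith : Clp S (fun J F A => ¬ qCnt (Y n) 1 J F A)).le hle)
    exact ⟨P, ⟨s, hs, hPe⟩, hP⟩)
  refine ⟨S', h1, h2, fun i => ?_⟩
  obtain ⟨S₁, P, ⟨s, hs, hPe⟩, -, -, hle, hall⟩ := h4 i
  refine ⟨-s, fun h hh => ent_base (fun τ J F A hA => hpos τ J F A (h2 τ J F A hA))
    (fun h hh => ?_) (fun h hh => ?_) h hh⟩
  · obtain ⟨τ₀, hτ₀, J₀, hb⟩ := (hlo i).sub h2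
    have hi : (0 : ℝ) < (i : ℝ) + 1 := by positivity
    refine ⟨min τ₀ (min h (1 / ((i : ℝ) + 1))), lt_min hτ₀ (lt_min hh (by positivity)), J₀,
      fun J hJ F A hA => ?_⟩
    have k1 : min τ₀ (min h (1 / ((i : ℝ) + 1))) ≤ h := (min_le_right _ _).trans (min_le_left _ _)
    have k2 : min τ₀ (min h (1 / ((i : ℝ) + 1))) ≤ 1 / ((i : ℝ) + 1) :=
      (min_le_right _ _).trans (min_le_right _ _)
    have k3 : ((i : ℝ) + 1) * min τ₀ (min h (1 / ((i : ℝ) + 1))) ≤ 1 := by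
      rw [le_div_iff₀ hi] at k2
      linarith
    have k4 := (hall _ J F A k3 hA).2
    rw [hPe] at k4
    rcases k4 with k4 | k4
    · exact qCnt.anti _ _ _ J F A (by linarith) k4
    · exact qCnt.anti _ _ _ J F A (by linarith) (hb J hJ F A (S'.mono (min_le_left _ _) hA))
  · exact Bas.neg (fun J F => qCnt.hered _ _ J F) ((hs.le hle).2 h hh)

/-! ### The positions -/

open Classical in
theorem cnt_le_supp {Ω β : Type} [Fintype Ω] (p : Ω → ℝ) (Y : Ω → β) (A : Ω → Prop) :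
    cnt p Y A ≤ ((univ.filter fun ω => p ω ≠ 0).image Y).card := by
  unfold cnt
  refine card_le_card (image_subset_image ?_)
  intro ω hω
  rw [mem_filter] at hω ⊢
  exact ⟨hω.1, hω.2.1.ne'⟩

/-- The number of values of the positions is at most exponential. -/
theorem cnt_pos {S : PCl m} {a R : ℝ} (ha : 1 ≤ a) (hR : 0 < R)
    (hst : ∀ (τ : ℝ) (J : ℕ) (F : Fam m J) (A : F.Ω → Prop), S.St τ J F A →
      Fam.Stt F a R τ A) :
    Bas S (fun J F A => ∀ k : ℕ, k ≤ J →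
      (cnt F.p (ptr F k) A : ℝ) ≤ Real.exp ((2 + (m + 1) * Real.log 2 + cc m) * J)) := by
  classical
  refine ⟨min 1 R, lt_min one_pos hR, 1, fun J hJ F A hA k hk => ?_⟩
  obtain ⟨⟨z, hz⟩, hMx, ⟨-, ⟨h, hcard, hlaw⟩, -⟩, -⟩ := hst _ J F A hA
  obtain ⟨τ, hτ⟩ : ∃ τ, τ = min 1 R := ⟨_, rfl⟩
  rw [← hτ] at hcard hlaw hMx
  have hτ1 : τ ≤ 1 := by rw [hτ]; exact min_le_left _ _
  have hτR : τ ≤ R := by rw [hτ]; exact min_le_right _ _
  have hp := F.isLaw
  have h0 := hp.nonneg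
  have hl2 : 0 < Real.log 2 := Real.log_pos (by norm_num)
  have hJ1 : (1 : ℝ) ≤ J := by exact_mod_cast hJ
  have hcc : 0 ≤ cc m := by
    unfold cc
    exact mul_nonneg (by positivity) (Real.log_nonneg (by norm_num))
  -- the positions are functions of `(X_J, T)`
  obtain ⟨φ, hφ⟩ := ptr_coarse F hk
  have c1 : cnt F.p (ptr F k) A ≤ cnt F.p (fun ω => (F.X J ω, F.T ω)) A :=
    cnt_comp_le F.p (fun ω => (F.X J ω, F.T ω)) (ptr F k) (fun y => φ (y.1, (y.2, z)))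
      fun ω hω _ => by
        rw [hφ ω]
        congr 1
        refine Prod.ext rfl (Prod.ext rfl ?_)
        exact hz ω hω.ne'
  have c2 := cnt_le_supp F.p (fun ω => (F.X J ω, F.T ω)) A
  have c3 : (cnt F.p (ptr F k) A : ℝ) ≤ Real.exp (h + τ * J) := by
    refine le_trans ?_ hcard
    have := c1.trans c2
    exact_mod_cast this
  refine c3.trans (Real.exp_le_exp.2 ?_)
  -- the bound for `h`
  have d1 : h - τ * J ≤ H F.p (fun ω => (F.X J ω, F.T ω)) := rg_ge hp hlaw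
  have d2 := tr_CH2 hp (F.X J) F.T F.Z z hz
  have d3 : CH F.p (F.X J) (fun ω => (F.T ω, F.Z ω)) ≤ CH F.p (F.D J) F.Z := by
    have h1 := hMx.2
    unfold Fam.Ga at h1
    have h2 : 0 ≤ (R - τ) * J := mul_nonneg (by linarith) (by linarith)
    have h3 : a * CH F.p (F.X J) F.W ≤ CH F.p (F.D J) F.Z := by linarith
    have h4 := CH_nonneg h0 (F.X J) F.W
    have h5 : CH F.p (F.X J) F.W ≤ a * CH F.p (F.X J) F.W := by nlinarith
    exact h5.trans h3
  have d4 := Rows.CH_D_le F J F.Z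
  have d5 : H F.p F.T ≤ J * Real.log 2 := by
    have h1 := TRC.CH_lt hp F.T (fun _ => ()) J F.tim
    have h2 : CH F.p F.T (fun _ : F.Ω => ()) =
        H F.p (fun ω => (F.T ω, ())) - H F.p (fun _ => ()) := rfl
    rw [h2, H_const hp.sum_one, sub_zero] at h1
    refine le_trans (H_mono h0 fun ω ω' _ _ e => ?_) h1
    exact (Prod.ext_iff.1 e).1
  have d6 : τ * J ≤ 1 * J := mul_le_mul_of_nonneg_right hτ1 (by linarith)
  have d7 : cc m ≤ cc m * J := by nlinarith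
  have d8 : h + τ * J ≤ 2 * J + (m * (J * Real.log 2) + cc m) + J * Real.log 2 := by linarith
  refine d8.trans ?_
  have : (2 + ((m : ℝ) + 1) * Real.log 2 + cc m) * J =
    2 * J + (m * (J * Real.log 2) + cc m * J) + J * Real.log 2 := by ring
  rw [this]
  linarith

/-- **Rates in base form.** -/
def BRate (S : PCl 3) (r : ℝ → ℝ) : Prop :=
  ∀ P : ℝ, 0 ≤ P → P ≤ 1 → ∀ h : ℝ, 0 < h → Bas S (fun J F A =>
    |CH (Pool.Agent.H49.Ent.cond F.p A True) (F.X ⌊P * J⌋₊) F.W - r P * Real.log 2 * J| ≤ h * J)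

/-- **The tail in base form.** -/
def BTail (S : PCl 3) (c Q : ℝ) : Prop :=
  ∀ h : ℝ, 0 < h → Bas S (fun J F A => ∀ k : ℕ, k ≤ ⌊Q * J⌋₊ →
    CH (Pool.Agent.H49.Ent.cond F.p A True) (F.X ⌊Q * J⌋₊) (fun ω => (F.X k ω, F.W ω)) ≤
      ((3 - c) * Real.log 2) * ((⌊Q * J⌋₊ : ℝ) - k) + h * J)

theorem BRate.sub {S S' : PCl 3} {r : ℝ → ℝ} (hS : SubC S' S) (h : BRate S r) : BRate S' r :=
  fun P h0 h1 e he => (h P h0 h1 e he).sub hS.sub

theorem BTail.sub {S S' : PCl 3} {c Q : ℝ} (hS : SubC S' S) (h : BTail S c Q) : BTail S' c Q :=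
  fun e he => (h e he).sub hS.sub

/-- Rows, for any law. -/
theorem rows_le {J : ℕ} {F : Fam m J} {q : F.Ω → ℝ} (hq : IsLaw q) {a b : ℕ} (hab : a ≤ b) :
    CH q (F.X b) (fun ω => (F.X a ω, F.W ω)) ≤ m * (((b : ℝ) - a) * Real.log 2) := by
  have h3 := Pool.KA.TRC.CH_floor hq F.x F.W a (b - a)
  have e : a + (b - a) = b := by omega
  rw [e] at h3
  have e2 : ((b - a : ℕ) : ℝ) = (b : ℝ) - a := by
    rw [Nat.cast_sub hab]
  rw [e2] at h3
  exact h3

theorem rows_eq {J : ℕ} {F : Fam m J} {q : F.Ω → ℝ} (hq : IsLaw q) {a b : ℕ} (hab : a ≤ b) :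
    CH q (F.X b) (fun ω => (F.X a ω, F.W ω)) = CH q (F.X b) F.W - CH q (F.X a) F.W := by
  have h1 := CH_chain hq.nonneg (F.X b) (F.X a) F.W
  have h2 : CH q (fun ω => (F.X b ω, F.X a ω)) F.W = CH q (F.X b) F.W := by
    refine CH_congr hq.nonneg ?_ ?_ (fun _ _ _ _ e => e) (fun _ _ _ _ e => e)
    · intro ω ω' _ _ e
      exact (Prod.ext_iff.1 (Prod.ext_iff.1 e).1).1
    · intro ω ω' _ _ e
      have e1 := (Prod.ext_iff.1 e).1
      exact Prod.ext e1 (Pool.STK.B58.fl_fine hab e1)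
  linarith

/-- Nearby rows. -/
theorem rows_near {J : ℕ} {F : Fam m J} {q : F.Ω → ℝ} (hq : IsLaw q) {P P' : ℝ} (hP : 0 ≤ P)
    (hPP : P ≤ P') :
    CH q (F.X ⌊P * J⌋₊) F.W ≤ CH q (F.X ⌊P' * J⌋₊) F.W ∧
    CH q (F.X ⌊P' * J⌋₊) F.W ≤ CH q (F.X ⌊P * J⌋₊) F.W + m * (((P' - P) * J + 1) * Real.log 2) := by
  have hJ : (0 : ℝ) ≤ J := Nat.cast_nonneg J
  have hl2 : 0 < Real.log 2 := Real.log_pos (by norm_num)
  have h1 : P * J ≤ P' * J := mul_le_mul_of_nonneg_right hPP hJ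
  have hle : ⌊P * J⌋₊ ≤ ⌊P' * J⌋₊ := Nat.floor_le_floor h1
  have e1 := rows_eq (F := F) hq hle
  have e2 := rows_le (F := F) hq hle
  have e3 := CH_nonneg hq.nonneg (F.X ⌊P' * J⌋₊) (fun ω => (F.X ⌊P * J⌋₊ ω, F.W ω))
  have e4 : (⌊P' * J⌋₊ : ℝ) ≤ P' * J := Nat.floor_le (by nlinarith)
  have e5 := Nat.lt_floor_add_one (P * J)
  refine ⟨by linarith, ?_⟩
  have e6 : ((⌊P' * J⌋₊ : ℝ) - ⌊P * J⌋₊) * Real.log 2 ≤ ((P' - P) * J + 1) * Real.log 2 :=
    mul_le_mul_of_nonneg_right (by linarith) hl2.le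
  have e7 := mul_le_mul_of_nonneg_left e6 (Nat.cast_nonneg (α := ℝ) m)
  linarith

/-- **The rates in base form, in a subclass.** -/
theorem brate_sub {S : PCl 3} {a R h₁ : ℝ} {i₀ : Fin 3} {c s₂ : ℝ} {r : ℝ → ℝ} {D : Set ℝ}
    {σ : ℝ → Row} (hC : Cs S a R h₁ i₀ c s₂ r D σ) : ∃ S' : PCl 3, SubC S' S ∧ BRate S' r := by
  classical
  have hpos : ∀ (τ : ℝ) (J : ℕ) (F : Fam 3 J) (A : F.Ω → Prop), S.St τ J F A →
      0 < Pe F.p A := fun τ J F A hA => lt_of_lt_of_le (Real.exp_pos _) (hC.st τ J F A hA).2.2.2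
  have hcnt := cnt_pos hC.a1.le hC.R0 hC.st
  obtain ⟨M, hM⟩ : ∃ M : ℝ, M = 2 + ((3 : ℕ) + 1) * Real.log 2 + cc 3 := ⟨_, rfl⟩
  have hcnt' : Bas S (fun J F A => ∀ k : ℕ, k ≤ J →
      (cnt F.p (ptr F k) A : ℝ) ≤ Real.exp (M * J)) := by
    rw [hM]
    exact hcnt
  -- the functions
  obtain ⟨e, he⟩ := exists_surjective_nat (Option {q : ℚ // 0 ≤ q ∧ q ≤ 1})
  obtain ⟨Y, hY⟩ : ∃ Y : ∀ (_ J : ℕ) (F : Fam 3 J), F.Ω → (Fin 3 → ℤ) × (ℕ × F.ζ),
      Y = fun i J F ω => match e i with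
        | none => (fun _ => 0, F.W ω)
        | some q => ptr F ⌊((q : ℚ) : ℝ) * J⌋₊ ω := ⟨_, rfl⟩
  have hY0 : ∀ i, e i = none → ∀ (J : ℕ) (F : Fam 3 J), Y i J F = fun ω => (fun _ => 0, F.W ω) := by
    intro i hi J F
    rw [hY]
    funext ω
    simp only [hi]
  have hY1 : ∀ i q, e i = some q → ∀ (J : ℕ) (F : Fam 3 J), Y i J F =
      ptr F ⌊((q : ℚ) : ℝ) * J⌋₊ := by
    intro i q hi J F
    rw [hY]
    funext ω
    simp only [hi]
  have hk : ∀ (q : {q : ℚ // 0 ≤ q ∧ q ≤ 1}) (J : ℕ), ⌊((q : ℚ) : ℝ) * J⌋₊ ≤ J := by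
    intro q J
    refine Nat.floor_le_of_le ?_
    have h1 : ((q : ℚ) : ℝ) ≤ 1 := by exact_mod_cast q.2.2
    have := mul_le_mul_of_nonneg_right h1 (Nat.cast_nonneg (α := ℝ) J)
    linarith
  obtain ⟨S', hne, hsub, hη⟩ := ext_ent_base hC.ne hpos (fun _ _ F => (Fin 3 → ℤ) × (ℕ × F.ζ)) Y
    (fun _ => M) (fun i => Bas.mono 0 hcnt' (by
      intro J _ F A hA
      rcases hi : e i with _ | q
      · rw [hY0 i hi]
        refine le_trans ?_ (hA 0 (Nat.zero_le J))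
        have := cnt_comp_le F.p (ptr F 0) (fun ω => ((fun _ => 0 : Fin 3 → ℤ), F.W ω)) (A := A)
          (fun y => (fun _ => 0, y.2)) (fun ω _ _ => rfl)
        exact_mod_cast this
      · rw [hY1 i q hi]
        exact hA _ (hk q J)))
  have hS' : SubC S' S := ⟨hne, hsub⟩
  refine ⟨S', hS', ?_⟩
  obtain ⟨i₁, hi₁⟩ := he none
  obtain ⟨η₀, hη₀⟩ := hη i₁
  -- rational rows
  have hrat : ∀ q : {q : ℚ // 0 ≤ q ∧ q ≤ 1}, ∀ h : ℝ, 0 < h → Bas S' (fun J F A =>
      |CH (Pool.Agent.H49.Ent.cond F.p A True) (F.X ⌊((q : ℚ) : ℝ) * J⌋₊) F.W -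
        r q * Real.log 2 * J| ≤ h * J) := by
    intro q
    obtain ⟨i, hi⟩ := he (some q)
    obtain ⟨η, hη⟩ := hη i
    have key : ∀ h : ℝ, 0 < h → Bas S' (fun J F A =>
        |CH (Pool.Agent.H49.Ent.cond F.p A True) (F.X ⌊((q : ℚ) : ℝ) * J⌋₊) F.W -
          (η - η₀) * J| ≤ h * J) := by
      intro h hh
      refine Bas.mono 0 (((hη (h / 2) (half_pos hh)).and (hη₀ (h / 2) (half_pos hh))).and
        (⟨1, one_pos, 0, fun J _ F A hA => hpos 1 J F A (hsub 1 J F A hA)⟩ :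
          Bas S' (fun _ F A => 0 < Pe F.p A))) ?_
      rintro J - F A ⟨⟨k1, k2⟩, k3⟩
      rw [hY1 i q hi] at k1
      rw [hY0 i₁ hi₁] at k2
      have hcl := isLaw_cond F.isLaw k3
      have e1 : H (Pool.Agent.H49.Ent.cond F.p A True)
          (fun ω => ((fun _ => 0 : Fin 3 → ℤ), F.W ω)) =
          H (Pool.Agent.H49.Ent.cond F.p A True) F.W :=
        H_congr hcl.nonneg (fun _ _ _ _ e => Prod.ext rfl e)
          (fun _ _ _ _ e => (Prod.ext_iff.1 e).2)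
      have e2 : CH (Pool.Agent.H49.Ent.cond F.p A True) (F.X ⌊((q : ℚ) : ℝ) * J⌋₊) F.W =
          H (Pool.Agent.H49.Ent.cond F.p A True) (ptr F ⌊((q : ℚ) : ℝ) * J⌋₊) -
          H (Pool.Agent.H49.Ent.cond F.p A True) F.W := rfl
      rw [e1] at k2
      rw [e2]
      rw [abs_le] at k1 k2 ⊢
      constructor <;> linarith [k1.1, k1.2, k2.1, k2.2]
    have hq0 : (0 : ℝ) ≤ ((q : ℚ) : ℝ) := by exact_mod_cast q.2.1
    have hq1 : ((q : ℚ) : ℝ) ≤ 1 := by exact_mod_cast q.2.2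
    have hEq : η - η₀ = r q * Real.log 2 := by
      by_contra hne'
      obtain ⟨d, hd⟩ : ∃ d, d = |(η - η₀) - r q * Real.log 2| := ⟨_, rfl⟩
      have hd0 : 0 < d := by
        rw [hd]
        exact abs_pos.2 (sub_ne_zero.2 hne')
      have c1 := (key (d / 4) (by linarith)).clp
      have c2 := Clp.le hS'.le (hC.rate q hq0 hq1 (d / 4) (by linarith))
      obtain ⟨J, hJ, F, A, -, k1, k2⟩ := (c1.and c2).real hne one_pos 1
      have hJ0 : (1 : ℝ) ≤ J := by exact_mod_cast hJ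
      have k3 : d * J ≤ d / 2 * J := by
        have : d * J = |((η - η₀) - r q * Real.log 2) * J| := by
          rw [abs_mul, ← hd, abs_of_nonneg (by linarith)]
        rw [this]
        rw [abs_le] at k1 k2 ⊢
        constructor <;> linarith [k1.1, k1.2, k2.1, k2.2]
      nlinarith
    intro h hh
    have := key h hh
    rwa [hEq] at this
  -- all rows
  intro P hP0 hP1 h hh
  obtain ⟨q, hq0, hq1, hqP⟩ : ∃ q : ℚ, 0 ≤ q ∧ q ≤ 1 ∧ |P - q| ≤ h / 16 := by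
    rcases lt_or_eq_of_le hP1 with h1 | h1
    · obtain ⟨q, h2, h3⟩ := exists_rat_btwn (lt_min h1 (by linarith : P < P + h / 16))
      refine ⟨q, ?_, ?_, ?_⟩
      · have : (0 : ℝ) ≤ q := by linarith
        exact_mod_cast this
      · have : (q : ℝ) ≤ 1 := (h3.trans_le (min_le_left _ _)).le
        exact_mod_cast this
      · have := h3.trans_le (min_le_right _ _)
        rw [abs_le]
        constructor <;> linarith
    · refine ⟨1, zero_le_one, le_rfl, ?_⟩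
      rw [h1]
      norm_num
      linarith
  obtain ⟨J₂, hJ₂⟩ := exists_nat_gt (16 / h)
  refine Bas.mono J₂ ((hrat ⟨q, hq0, hq1⟩ (h / 4) (by linarith)).and
    (⟨1, one_pos, 0, fun J _ F A hA => hpos 1 J F A (hsub 1 J F A hA)⟩ :
      Bas S' (fun _ F A => 0 < Pe F.p A))) ?_
  rintro J hJ F A ⟨k1, k2⟩
  have hcl := isLaw_cond F.isLaw k2
  have hJ0 : (0 : ℝ) ≤ J := Nat.cast_nonneg J
  have hJ3 : 16 ≤ h * J := by
    have : 16 / h < J := hJ₂.trans_le (by exact_mod_cast hJ)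
    rw [div_lt_iff₀ hh] at this
    linarith
  have hl2 : 0 < Real.log 2 := Real.log_pos (by norm_num)
  have hl1 : Real.log 2 ≤ 1 := by
    have := Real.log_two_lt_d9
    linarith
  have hlip : |r P - r q| ≤ 3 * |P - q| := by
    have := hC.lip.dist_le_mul P q
    rw [Real.dist_eq, Real.dist_eq] at this
    simpa using this
  have hq0r : (0 : ℝ) ≤ q := by exact_mod_cast hq0
  have hnear : |CH (Pool.Agent.H49.Ent.cond F.p A True) (F.X ⌊P * J⌋₊) F.W -
      CH (Pool.Agent.H49.Ent.cond F.p A True) (F.X ⌊(q : ℝ) * J⌋₊) F.W| ≤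
      3 * (|P - q| * J + 1) := by
    rcases le_total P q with h1 | h1
    · obtain ⟨n1, n2⟩ := rows_near (F := F) hcl hP0 h1
      have n3 : ((q : ℝ) - P) * J + 1 = |P - q| * J + 1 := by
        rw [abs_sub_comm, abs_of_nonneg (by linarith)]
      rw [n3] at n2
      have n4 : (|P - q| * J + 1) * Real.log 2 ≤ (|P - q| * J + 1) * 1 :=
        mul_le_mul_of_nonneg_left hl1 (by positivity)
      push_cast at n2
      rw [abs_le]
      constructor <;> linarith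
    · obtain ⟨n1, n2⟩ := rows_near (F := F) hcl hq0r h1
      have n3 : (P - q) * J + 1 = |P - q| * J + 1 := by
        rw [abs_of_nonneg (by linarith)]
      rw [n3] at n2
      have n4 : (|P - q| * J + 1) * Real.log 2 ≤ (|P - q| * J + 1) * 1 :=
        mul_le_mul_of_nonneg_left hl1 (by positivity)
      push_cast at n2
      rw [abs_le]
      constructor <;> linarith
  have k3 : |P - q| * J ≤ h / 16 * J := mul_le_mul_of_nonneg_right hqP hJ0
  have k4 : |r P - r q| * Real.log 2 * J ≤ 3 * (h / 16 * J) := by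
    calc |r P - r q| * Real.log 2 * J ≤ (3 * |P - q|) * 1 * J := by
          refine mul_le_mul_of_nonneg_right ?_ hJ0
          exact mul_le_mul hlip hl1 hl2.le (by positivity)
      _ = 3 * (|P - q| * J) := by ring
      _ ≤ _ := by linarith
  have k5 : |r P * Real.log 2 * J - r q * Real.log 2 * J| ≤ 3 * (h / 16 * J) := by
    have : r P * Real.log 2 * J - r q * Real.log 2 * J = (r P - r q) * Real.log 2 * J := by ring
    rw [this, abs_mul, abs_mul, abs_of_nonneg hl2.le, abs_of_nonneg hJ0]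
    exact k4
  simp only at k1
  rw [abs_le] at k1 k5 hnear ⊢
  constructor <;> linarith [k1.1, k1.2, k5.1, k5.2, hnear.1, hnear.2]

/-- **The tail at a Pliss row**, in base form. -/
theorem btail_of_brate {S : PCl 3} {r : ℝ → ℝ} (hS : BRate S r)
    (hpos : ∀ (τ : ℝ) (J : ℕ) (F : Fam 3 J) (A : F.Ω → Prop), S.St τ J F A → 0 < Pe F.p A)
    {c Q : ℝ} (hQ0 : 0 ≤ Q) (hQ1 : Q ≤ 1) (hQ : Plr r c Q) : BTail S c Q := by
  classical
  intro h hh
  obtain ⟨n, hn⟩ := exists_nat_gt (8 * (|3 - c| + 1) / h)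
  have hn0 : (0 : ℝ) < n := lt_of_le_of_lt (by positivity) hn
  have hn1 : 0 < n := by exact_mod_cast hn0
  have hnh : (|3 - c| + 1) / n ≤ h / 8 := by
    rw [div_le_iff₀ hn0]
    rw [div_lt_iff₀ hh] at hn
    linarith
  obtain ⟨J₂, hJ₂⟩ := exists_nat_gt (16 * (|3 - c| + 1) / h)
  have hPi : ∀ i : ℕ, i < n + 1 → 0 ≤ Q * (i / n) ∧ Q * (i / n) ≤ 1 := by
    intro i hi
    have h1 : (i : ℝ) / n ≤ 1 := by
      rw [div_le_one hn0]
      exact_mod_cast Nat.lt_succ_iff.1 hi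
    have h2 : (0 : ℝ) ≤ i / n := by positivity
    exact ⟨mul_nonneg hQ0 h2, by nlinarith⟩
  refine Bas.mono J₂ (((Bas.all (n + 1) fun i hi => hS (Q * (i / n)) (hPi i hi).1 (hPi i hi).2
    (h / 8) (by linarith)).and (hS Q hQ0 hQ1 (h / 8) (by linarith))).and
    (⟨1, one_pos, 0, fun J _ F A hA => hpos 1 J F A hA⟩ :
      Bas S (fun _ F A => 0 < Pe F.p A))) ?_
  rintro J hJ F A ⟨⟨k1, k2⟩, k3⟩ k hk
  have hcl := isLaw_cond F.isLaw k3
  have hJ0 : (0 : ℝ) ≤ J := Nat.cast_nonneg J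
  have hl2 : 0 < Real.log 2 := Real.log_pos (by norm_num)
  have hl1 : Real.log 2 ≤ 1 := by
    have := Real.log_two_lt_d9
    linarith
  have hJ3 : |3 - c| + 1 ≤ h / 16 * J := by
    have : 16 * (|3 - c| + 1) / h < J := hJ₂.trans_le (by exact_mod_cast hJ)
    rw [div_lt_iff₀ hh] at this
    linarith
  rw [rows_eq hcl hk]
  have hfl : (⌊Q * J⌋₊ : ℝ) ≤ Q * J := Nat.floor_le (by positivity)
  have hfl2 := Nat.lt_floor_add_one (Q * J)
  have hkr : (k : ℝ) ≤ ⌊Q * J⌋₊ := by exact_mod_cast hk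
  -- the mesh point below `k`
  obtain ⟨i, hin, hi1, hi2⟩ : ∃ i < n + 1, Q * (i / n) * J ≤ k ∧
      (k : ℝ) ≤ Q * (i / n) * J + Q * J / n + 1 := by
    rcases eq_or_lt_of_le (mul_nonneg hQ0 hJ0) with h0 | h0
    · refine ⟨0, by omega, ?_, ?_⟩
      · simp
      · have : (k : ℝ) ≤ 0 := by linarith
        simp only [Nat.cast_zero, zero_div, mul_zero, zero_mul, zero_add]
        have : 0 ≤ Q * J / n := by positivity
        linarith
    · obtain ⟨i, hi⟩ : ∃ i, i = ⌊(k : ℝ) * n / (Q * J)⌋₊ := ⟨_, rfl⟩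
      have a1 : (i : ℝ) ≤ k * n / (Q * J) := by
        rw [hi]
        exact Nat.floor_le (by positivity)
      have a2 : (k : ℝ) * n / (Q * J) < i + 1 := by
        rw [hi]
        exact Nat.lt_floor_add_one _
      rw [le_div_iff₀ h0] at a1
      rw [div_lt_iff₀ h0] at a2
      refine ⟨i, ?_, ?_, ?_⟩
      · have : (i : ℝ) ≤ n := by
          by_contra hcon
          push Not at hcon
          nlinarith
        have : i ≤ n := by exact_mod_cast this
        omega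
      · have : Q * (i / n) * J = (i * (Q * J)) / n := by ring
        rw [this, div_le_iff₀ hn0]
        exact a1
      · have e1 : Q * (i / n) * J + Q * J / n + 1 = ((i + 1) * (Q * J)) / n + 1 := by ring
        rw [e1]
        have : (k : ℝ) ≤ ((i + 1) * (Q * J)) / n := by
          rw [le_div_iff₀ hn0]
          exact a2.le
        linarith
  have hPi1 := hPi i hin
  have hle : ⌊Q * (i / n) * J⌋₊ ≤ k := Nat.floor_le_of_le hi1
  have m1 := rows_eq (F := F) hcl hle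
  have m2 := CH_nonneg hcl.nonneg (F.X k) (fun ω => (F.X ⌊Q * (i / n) * J⌋₊ ω, F.W ω))
  have m3 := (abs_le.1 (k1 i hin)).1
  have m4 := (abs_le.1 k2).2
  have hin' : (i : ℝ) / n ≤ 1 := by
    rw [div_le_one hn0]
    exact_mod_cast Nat.lt_succ_iff.1 hin
  have hQi : Q * (i / n) ≤ Q := by
    have := mul_le_mul_of_nonneg_left hin' hQ0
    linarith
  have m5 := hQ (Q * (i / n)) hPi1.1 hQi
  have m6 : (r Q - r (Q * (i / n))) * (Real.log 2 * J) ≤
      ((3 - c) * (Q - Q * (i / n))) * (Real.log 2 * J) :=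
    mul_le_mul_of_nonneg_right m5 (by positivity)
  -- the error of the mesh
  obtain ⟨E, hE⟩ : ∃ E, E = (Q - Q * (i / n)) * J - ((⌊Q * J⌋₊ : ℝ) - k) := ⟨_, rfl⟩
  have hEb : |E| ≤ Q * J / n + 2 := by
    have hE2 : E = (Q * J - ⌊Q * J⌋₊) + (k - Q * (i / n) * J) := by rw [hE]; ring
    have hq : 0 ≤ Q * J / n := by positivity
    rw [hE2, abs_le]
    constructor <;> linarith
  have m7 : (3 - c) * Real.log 2 * E ≤ |3 - c| * (J / n + 2) := by
    have a1 : (3 - c) * Real.log 2 * E ≤ |(3 - c) * Real.log 2 * E| := le_abs_self _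
    refine a1.trans ?_
    rw [abs_mul, abs_mul, abs_of_nonneg hl2.le]
    have a2 : Q * J / n ≤ J / n := by
      refine div_le_div_of_nonneg_right ?_ hn0.le
      have := mul_le_mul_of_nonneg_right hQ1 hJ0
      linarith
    calc |3 - c| * Real.log 2 * |E| ≤ |3 - c| * 1 * (J / n + 2) := by
          refine mul_le_mul (mul_le_mul_of_nonneg_left hl1 (abs_nonneg _)) (hEb.trans ?_)
            (abs_nonneg _) (by positivity)
          linarith
      _ = _ := by ring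
  have m8 : |3 - c| * (J / n + 2) ≤ h / 8 * J + 2 * (h / 16 * J) := by
    have a1 : |3 - c| / n ≤ h / 8 := by
      refine le_trans ?_ hnh
      exact div_le_div_of_nonneg_right (by linarith) hn0.le
    have a2 : |3 - c| * (J / n + 2) = |3 - c| / n * J + 2 * |3 - c| := by ring
    rw [a2]
    have := mul_le_mul_of_nonneg_right a1 hJ0
    linarith
  have m9 : ((3 - c) * (Q - Q * (i / n))) * (Real.log 2 * J) =
      ((3 - c) * Real.log 2) * ((⌊Q * J⌋₊ : ℝ) - k) + (3 - c) * Real.log 2 * E := by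
    rw [hE]
    ring
  have m10 : (r Q - r (Q * (i / n))) * (Real.log 2 * J) = r Q * Real.log 2 * J -
      r (Q * (i / n)) * Real.log 2 * J := by ring
  have hhJ : 0 ≤ h * J := by positivity
  linarith

/-- **The tail in base form, in a subclass.** -/
theorem btail_sub {S : PCl 3} {a R h₁ : ℝ} {i₀ : Fin 3} {c s₂ : ℝ} {r : ℝ → ℝ} {D : Set ℝ}
    {σ : ℝ → Row} (hC : Cs S a R h₁ i₀ c s₂ r D σ) : ∃ S' : PCl 3, SubC S' S ∧ BRate S' r ∧
      ∀ Q : ℝ, 0 ≤ Q → Q ≤ 1 → Plr r c Q → BTail S' c Q := by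
  obtain ⟨S', h1, h2⟩ := brate_sub hC
  refine ⟨S', h1, h2, fun Q hQ0 hQ1 hQ => btail_of_brate h2 ?_ hQ0 hQ1 hQ⟩
  intro τ J F A hA
  exact lt_of_lt_of_le (Real.exp_pos _) (hC.st τ J F A (h1.sub τ J F A hA)).2.2.2

end Pool.S6C
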