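import Pool.Agent.H64.K3.Box
import Pool.Agent.H60.PB.CHS

/-!
# Visibility of the zoom

`zmF F w J' C g` is the box family at the window `w`, truncated to the resolution `J'` and with
rounded lines. If on `A` the frame `g` and the velocity in the coordinates (up to `c`) are functions
of the point of resolution `Q ≥ w + J' + lam`, then on a part of `A` of bounded proportion the exact
point of the zoom is a function of the point of resolution `Q`.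
-/

set_option autoImplicit false

namespace Pool.Agent.H60.ZCL

open Finset Real
open Pool.Agent.H49.Ent Pool.Agent.H32.Dense Pool.STK Pool.KA Pool.K2S

/-- Integer labels which are functions of `y` up to bounded errors are functions of `y` on a part
of bounded proportion. -/
theorem exists_fn_of_near {Ω Y : Type} [Fintype Ω] {p : Ω → ℝ} {n M : ℕ}
    (A : Ω → Prop) (y : Ω → Y) (V : Ω → Fin n → ℤ)
    (h : ∀ ω ω', A ω → A ω' → y ω = y ω' → ∀ i, |V ω i - V ω' i| ≤ M) :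
    ∃ B : Ω → Prop, Sub B A ∧ Pe p A / ((M + 1) ^ n : ℕ) ≤ Pe p B ∧
      ∀ ω ω', B ω → B ω' → y ω = y ω' → V ω = V ω' := by
  classical
  have hM : ((M + 1 : ℕ) : ℤ) ≠ 0 := by positivity
  have hM0 : (0 : ℤ) < ((M + 1 : ℕ) : ℤ) := by positivity
  obtain ⟨r, hr⟩ : ∃ r : Ω → Fin n → Fin (M + 1), ∀ ω i,
      ((r ω i : ℕ) : ℤ) = V ω i % ((M + 1 : ℕ) : ℤ) := by
    refine ⟨fun ω i => ⟨(V ω i % ((M + 1 : ℕ) : ℤ)).toNat, ?_⟩, fun ω i => ?_⟩
    · have h1 := Int.emod_nonneg (V ω i) hM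
      have h2 := Int.emod_lt_of_pos (V ω i) hM0
      omega
    · exact Int.toNat_of_nonneg (Int.emod_nonneg (V ω i) hM)
  obtain ⟨c, hc⟩ : ∃ c : Ω → Fin ((M + 1) ^ n), c = fun ω => finFunctionFinEquiv (r ω) :=
    ⟨_, rfl⟩
  obtain ⟨i, hi⟩ := Pool.Agent.H60.PB.exists_large (p := p) (n := (M + 1) ^ n)
    (by positivity) (A := A) c
  refine ⟨fun ω => A ω ∧ c ω = i, fun ω hω => hω.1, hi, fun ω ω' hω hω' hy => ?_⟩
  funext j
  have e1 : r ω = r ω' := by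
    have h1 : c ω = c ω' := hω.2.trans hω'.2.symm
    rw [hc] at h1
    exact finFunctionFinEquiv.injective h1
  have e2 := hr ω j
  have e3 := hr ω' j
  rw [e1] at e2
  have e4 : V ω j % ((M + 1 : ℕ) : ℤ) = V ω' j % ((M + 1 : ℕ) : ℤ) := e2.symm.trans e3
  have e5 := h ω ω' hω.1 hω'.1 hy j
  have e6 : ((M + 1 : ℕ) : ℤ) ∣ V ω j - V ω' j :=
    Int.dvd_of_emod_eq_zero (by rw [Int.sub_emod, e4, sub_self, Int.zero_emod])
  have e7 : V ω j - V ω' j = 0 := by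
    refine Int.eq_zero_of_abs_lt_dvd e6 ?_
    refine lt_of_le_of_lt e5 ?_
    push_cast
    linarith
  linarith

section Zoom

variable {m J : ℕ} {κ : Type}

/-- The zoom. -/
noncomputable def zmF (F : Fam m J) (w J' : ℕ) (h : J' ≤ J - w) (C : Crd m κ) (g : F.Ω → κ) :
    Fam m J' := ((F.box w C g).trc J' h).rnd

/-- Positions in a truncated and rounded family. -/
theorem rnd_trc_x (G : Fam m J) {J' : ℕ} (h : J' ≤ J) (ω : G.Ω) (i : Fin m) :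
    |2 ^ J' * ((G.trc J' h).rnd).x ω i - 2 ^ J' * G.x ω i| ≤ 3 := by
  have hJ' : (0 : ℝ) < 2 ^ J' := by positivity
  obtain ⟨s, hs⟩ : ∃ s, s = ((G.trc J' h).rnd).t ω := ⟨_, rfl⟩
  have e1 : ((G.trc J' h).rnd).x ω i = (⌊(2 : ℝ) ^ J' * G.u ω i⌋ : ℝ) / 2 ^ J' +
      s * ((⌊(2 : ℝ) ^ J' * G.d ω i⌋ : ℝ) / 2 ^ J') := by
    rw [hs]; rfl
  have e2 : G.x ω i = G.u ω i + G.t ω * G.d ω i := rfl
  have f1 := Int.floor_le ((2 : ℝ) ^ J' * G.u ω i)
  have f2 := Int.lt_floor_add_one ((2 : ℝ) ^ J' * G.u ω i)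
  have f3 := Int.floor_le ((2 : ℝ) ^ J' * G.d ω i)
  have f4 := Int.lt_floor_add_one ((2 : ℝ) ^ J' * G.d ω i)
  -- the time
  have hs0 : 0 ≤ s := by
    rw [hs]
    unfold Fam.t
    positivity
  have hs1 : s ≤ 1 := by
    rw [hs]
    unfold Fam.t
    rw [div_le_one (by positivity)]
    exact_mod_cast (((G.trc J' h).rnd).tim ω).le
  have hs2 : |2 ^ J' * s - 2 ^ J' * G.t ω| ≤ 1 := by
    have g1 : 2 ^ J' * s = ((G.T ω / 2 ^ (J - J') : ℕ) : ℝ) := by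
      rw [hs]
      have : ((G.trc J' h).rnd).t ω = ((G.T ω / 2 ^ (J - J') : ℕ) : ℝ) / 2 ^ J' := rfl
      rw [this]
      field_simp
    have g2 : 2 ^ J' * G.t ω = (G.T ω : ℝ) / 2 ^ (J - J') := by
      have : G.t ω = (G.T ω : ℝ) / 2 ^ J := rfl
      rw [this]
      have h3 : (2 : ℝ) ^ J = 2 ^ J' * 2 ^ (J - J') := by
        rw [← pow_add]; congr 1; omega
      rw [h3]
      field_simp
    rw [g1, g2]
    obtain ⟨N, hN⟩ : ∃ N : ℕ, N = 2 ^ (J - J') := ⟨_, rfl⟩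
    have hN0 : 0 < N := by rw [hN]; positivity
    have hNr : (2 : ℝ) ^ (J - J') = (N : ℝ) := by rw [hN]; push_cast; rfl
    rw [← hN, hNr]
    have hN0r : (0 : ℝ) < N := by exact_mod_cast hN0
    have k1 := Nat.div_add_mod (G.T ω) N
    have k2 := Nat.mod_lt (G.T ω) hN0
    have k3 : (G.T ω : ℝ) = N * ((G.T ω / N : ℕ) : ℝ) + ((G.T ω % N : ℕ) : ℝ) := by
      exact_mod_cast k1.symm
    have k4 : ((G.T ω % N : ℕ) : ℝ) < N := by exact_mod_cast k2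
    have k5 : (0 : ℝ) ≤ ((G.T ω % N : ℕ) : ℝ) := by positivity
    have k6 : (G.T ω : ℝ) / N = ((G.T ω / N : ℕ) : ℝ) + ((G.T ω % N : ℕ) : ℝ) / N := by
      rw [k3]
      have : (((N : ℝ) * ((G.T ω / N : ℕ) : ℝ) + ((G.T ω % N : ℕ) : ℝ)) / N) =
        ((G.T ω / N : ℕ) : ℝ) + ((G.T ω % N : ℕ) : ℝ) / N := by field_simp
      convert this using 3
    rw [k6]
    have k7 : ((G.T ω % N : ℕ) : ℝ) / N ≤ 1 := by
      rw [div_le_one hN0r]
      exact k4.le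
    have k8 : 0 ≤ ((G.T ω % N : ℕ) : ℝ) / N := by positivity
    rw [abs_le]
    constructor <;> linarith
  have hd := abs_le.1 (G.dir ω i)
  have e3 : 2 ^ J' * ((G.trc J' h).rnd).x ω i - 2 ^ J' * G.x ω i =
      ((⌊(2 : ℝ) ^ J' * G.u ω i⌋ : ℝ) - 2 ^ J' * G.u ω i) +
      s * ((⌊(2 : ℝ) ^ J' * G.d ω i⌋ : ℝ) - 2 ^ J' * G.d ω i) +
      (2 ^ J' * s - 2 ^ J' * G.t ω) * G.d ω i := by
    rw [e1, e2]
    field_simp
    ring
  rw [e3]
  have a1 : |(⌊(2 : ℝ) ^ J' * G.u ω i⌋ : ℝ) - 2 ^ J' * G.u ω i| ≤ 1 := by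
    rw [abs_le]; constructor <;> linarith
  have a2 : |s * ((⌊(2 : ℝ) ^ J' * G.d ω i⌋ : ℝ) - 2 ^ J' * G.d ω i)| ≤ 1 := by
    rw [abs_mul, abs_of_nonneg hs0]
    have : |(⌊(2 : ℝ) ^ J' * G.d ω i⌋ : ℝ) - 2 ^ J' * G.d ω i| ≤ 1 := by
      rw [abs_le]; constructor <;> linarith
    calc _ ≤ 1 * 1 := mul_le_mul hs1 this (abs_nonneg _) zero_le_one
      _ = 1 := one_mul 1
  have a3 : |(2 ^ J' * s - 2 ^ J' * G.t ω) * G.d ω i| ≤ 1 := by
    rw [abs_mul]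
    calc _ ≤ 1 * 1 := mul_le_mul hs2 (G.dir ω i) (abs_nonneg _) zero_le_one
      _ = 1 := one_mul 1
  have b1 := abs_add_le (((⌊(2 : ℝ) ^ J' * G.u ω i⌋ : ℝ) - 2 ^ J' * G.u ω i) +
      s * ((⌊(2 : ℝ) ^ J' * G.d ω i⌋ : ℝ) - 2 ^ J' * G.d ω i))
      ((2 ^ J' * s - 2 ^ J' * G.t ω) * G.d ω i)
  have b2 := abs_add_le ((⌊(2 : ℝ) ^ J' * G.u ω i⌋ : ℝ) - 2 ^ J' * G.u ω i)
      (s * ((⌊(2 : ℝ) ^ J' * G.d ω i⌋ : ℝ) - 2 ^ J' * G.d ω i))
  linarith

/-- **Visibility of the zoom.** -/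
theorem vis_zoom (b c : ℝ) (m : ℕ) :
    ∃ N : ℕ, 0 < N ∧ ∀ (J : ℕ) (κ : Type) (F : Fam m J) (w J' lam Q : ℕ) (hJ' : J' ≤ J - w)
      (C : Crd m κ) (g : F.Ω → κ), w ≤ J → C.Bd lam b → w + J' + lam ≤ Q → ∀ A : F.Ω → Prop,
      (∀ ω ω', A ω → A ω' → (F.X Q ω, F.W ω) = (F.X Q ω', F.W ω') → g ω = g ω' ∧
        ∀ i, |C.L (g ω) (F.d ω) i - C.L (g ω) (F.d ω') i| ≤ c) →
      ∃ B : F.Ω → Prop, Sub B A ∧ Pe F.p A / N ≤ Pe F.p B ∧
        ∀ ω ω', B ω → B ω' → (F.X Q ω, F.W ω) = (F.X Q ω', F.W ω') →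
          Fam.pt (zmF F w J' hJ' C g) ω = Fam.pt (zmF F w J' hJ' C g) ω' := by
  classical
  obtain ⟨M₁, hM₁⟩ := exists_nat_ge (c + |b| + 1)
  have hbb := le_abs_self b
  have hbb0 := abs_nonneg b
  obtain ⟨M₂, hM₂⟩ := exists_nat_ge (b + 7)
  refine ⟨(M₁ + 1) ^ (m + m) * (M₂ + 1) ^ m, by positivity, ?_⟩
  intro J κ F w J' lam Q hJ' C g hw hC hQ A hA
  have hwJ : w + J' ≤ J := by omega
  -- positions in the coordinates
  have hpos : ∀ ω ω', A ω → A ω' → (F.X Q ω, F.W ω) = (F.X Q ω', F.W ω') → ∀ i,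
      |2 ^ (w + J') * C.L (g ω) (F.x ω) i - 2 ^ (w + J') * C.L (g ω) (F.x ω') i| ≤ b := by
    intro ω ω' hω hω' hy i
    have h1 : F.X Q ω = F.X Q ω' := (Prod.ext_iff.1 hy).1
    have g0 : ∀ l, |2 ^ Q * F.x ω l - 2 ^ Q * F.x ω' l| ≤ 1 := fun l =>
      Plk.abs_sub_lt_of_floor (congrFun h1 l)
    have h2 := hC (g ω) (fun l => 2 ^ Q * F.x ω l) (fun l => 2 ^ Q * F.x ω' l) g0 i
    rw [Box.L_smul, Box.L_smul, ← mul_sub, abs_mul, abs_of_nonneg (by positivity)] at h2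
    rw [← mul_sub, abs_mul, abs_of_nonneg (by positivity)]
    have h3 : (2 : ℝ) ^ (w + J') * 2 ^ lam ≤ 2 ^ Q := by
      rw [← pow_add]
      exact pow_le_pow_right₀ (by norm_num) hQ
    have h4 : 2 ^ lam * (2 ^ (w + J') * |C.L (g ω) (F.x ω) i - C.L (g ω) (F.x ω') i|) ≤
        2 ^ lam * b := by
      calc _ = ((2 : ℝ) ^ (w + J') * 2 ^ lam) * |C.L (g ω) (F.x ω) i - C.L (g ω) (F.x ω') i| := by
            ring
        _ ≤ 2 ^ Q * |C.L (g ω) (F.x ω) i - C.L (g ω) (F.x ω') i| :=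
            mul_le_mul_of_nonneg_right h3 (abs_nonneg _)
        _ ≤ b * 2 ^ lam := h2
        _ = _ := mul_comm _ _
    exact le_of_mul_le_mul_left h4 (by positivity)
  -- the cells
  obtain ⟨V₁, hV₁⟩ : ∃ V : F.Ω → Fin (m + m) → ℤ, V = fun ω =>
    Fin.append (F.bvl C g ω) (F.bcl w C g ω) := ⟨_, rfl⟩
  obtain ⟨B₁, hB1, hP1, hF1⟩ := exists_fn_of_near (p := F.p) (M := M₁) A
    (fun ω => (F.X Q ω, F.W ω)) V₁ (by
    intro ω ω' hω hω' hy i
    have hT : F.T ω = F.T ω' := (Prod.ext_iff.1 (Prod.ext_iff.1 hy).2).1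
    obtain ⟨hg, hd⟩ := hA ω ω' hω hω' hy
    have hx : ∀ i, |2 ^ w * C.L (g ω) (F.x ω) i - 2 ^ w * C.L (g ω) (F.x ω') i| ≤ b := by
      intro i
      refine le_trans ?_ (hpos ω ω' hω hω' hy i)
      rw [← mul_sub, ← mul_sub, abs_mul, abs_mul, abs_of_nonneg (show (0 : ℝ) ≤ 2 ^ w by positivity),
        abs_of_nonneg (show (0 : ℝ) ≤ 2 ^ (w + J') by positivity)]
      refine mul_le_mul_of_nonneg_right ?_ (abs_nonneg _)
      exact pow_le_pow_right₀ (by norm_num) (by omega)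
    have hn := Box.blab_near F hw (C := C) hT hg hd hx
    rw [hV₁]
    refine Fin.addCases (fun j => ?_) (fun j => ?_) i
    · have h1 := (hn j).1
      have h2 : |((F.bvl C g ω j - F.bvl C g ω' j : ℤ) : ℝ)| ≤ M₁ := by linarith
      simp only [Fin.append_left]
      exact_mod_cast h2
    · have h1 := (hn j).2
      have h2 : |((F.bcl w C g ω j - F.bcl w C g ω' j : ℤ) : ℝ)| ≤ M₁ := by linarith
      simp only [Fin.append_right]
      exact_mod_cast h2)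
  have hlab : ∀ ω ω', B₁ ω → B₁ ω' → (F.X Q ω, F.W ω) = (F.X Q ω', F.W ω') →
      F.blab w C g ω = F.blab w C g ω' ∧ F.bvl C g ω = F.bvl C g ω' ∧
      F.bcl w C g ω = F.bcl w C g ω' := by
    intro ω ω' hω hω' hy
    have hW := Prod.ext_iff.1 (Prod.ext_iff.1 hy).2
    have hT : F.T ω = F.T ω' := hW.1
    have hZ : F.Z ω = F.Z ω' := hW.2
    obtain ⟨hg, -⟩ := hA ω ω' (hB1 ω hω) (hB1 ω' hω') hy
    have h1 := hF1 ω ω' hω hω' hy
    rw [hV₁] at h1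
    have h2 : F.bvl C g ω = F.bvl C g ω' := by
      funext j
      have := congrFun h1 (Fin.castAdd m j)
      simpa only [Fin.append_left] using this
    have h3 : F.bcl w C g ω = F.bcl w C g ω' := by
      funext j
      have := congrFun h1 (Fin.natAdd m j)
      simpa only [Fin.append_right] using this
    refine ⟨?_, h2, h3⟩
    have h4 : F.T1 w ω = F.T1 w ω' := by unfold Fam.T1; rw [hT]
    unfold Fam.blab
    rw [h4, hg, h2, h3, hZ]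
  -- the position in the zoom
  obtain ⟨G, hG⟩ : ∃ G, G = zmF F w J' hJ' C g := ⟨_, rfl⟩
  obtain ⟨B₂, hB2, hP2, hF2⟩ := exists_fn_of_near (p := F.p) (M := M₂) B₁
    (fun ω => (F.X Q ω, F.W ω)) ((zmF F w J' hJ' C g).X J') (by
    intro ω ω' hω hω' hy i
    have hW := Prod.ext_iff.1 (Prod.ext_iff.1 hy).2
    have hT : F.T ω = F.T ω' := hW.1
    obtain ⟨h1, h2, h3⟩ := hlab ω ω' hω hω' hy
    obtain ⟨hg, -⟩ := hA ω ω' (hB1 ω hω) (hB1 ω' hω') hy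
    have ht : (F.box w C g).t ω = (F.box w C g).t ω' := by
      change ((F.T ω % 2 ^ (J - w) : ℕ) : ℝ) / 2 ^ (J - w) =
        ((F.T ω' % 2 ^ (J - w) : ℕ) : ℝ) / 2 ^ (J - w)
      rw [hT]
    have k1 := Box.box_x F hw C g ω i
    have k2 := Box.box_x F hw C g ω' i
    rw [h2, h3, ht] at k1
    have k3 := hpos ω ω' (hB1 ω hω) (hB1 ω' hω') hy i
    have k4 := rnd_trc_x (F.box w C g) hJ' ω i
    have k5 := rnd_trc_x (F.box w C g) hJ' ω' i
    have k6 : 2 ^ J' * (F.box w C g).x ω i - 2 ^ J' * (F.box w C g).x ω' i =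
        2 ^ (w + J') * C.L (g ω) (F.x ω) i - 2 ^ (w + J') * C.L (g ω) (F.x ω') i := by
      rw [← hg] at k2
      rw [pow_add]
      linear_combination (-(2 : ℝ) ^ J') * k1 + (2 : ℝ) ^ J' * k2
    rw [← k6] at k3
    have k7 : |2 ^ J' * (zmF F w J' hJ' C g).x ω i - 2 ^ J' * (zmF F w J' hJ' C g).x ω' i| ≤
        b + 6 := by
      have q1 : 2 ^ J' * (zmF F w J' hJ' C g).x ω i - 2 ^ J' * (zmF F w J' hJ' C g).x ω' i =
        (2 ^ J' * (zmF F w J' hJ' C g).x ω i - 2 ^ J' * (F.box w C g).x ω i) +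
        (2 ^ J' * (F.box w C g).x ω i - 2 ^ J' * (F.box w C g).x ω' i) -
        (2 ^ J' * (zmF F w J' hJ' C g).x ω' i - 2 ^ J' * (F.box w C g).x ω' i) := by ring
      rw [q1]
      have q2 := abs_sub ((2 ^ J' * (zmF F w J' hJ' C g).x ω i -
        2 ^ J' * (F.box w C g).x ω i) +
        (2 ^ J' * (F.box w C g).x ω i - 2 ^ J' * (F.box w C g).x ω' i))
        (2 ^ J' * (zmF F w J' hJ' C g).x ω' i - 2 ^ J' * (F.box w C g).x ω' i)
      have q3 := abs_add_le (2 ^ J' * (zmF F w J' hJ' C g).x ω i -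
        2 ^ J' * (F.box w C g).x ω i)
        (2 ^ J' * (F.box w C g).x ω i - 2 ^ J' * (F.box w C g).x ω' i)
      have q4 : |2 ^ J' * (zmF F w J' hJ' C g).x ω i - 2 ^ J' * (F.box w C g).x ω i| ≤ 3 := k4
      have q5 : |2 ^ J' * (zmF F w J' hJ' C g).x ω' i - 2 ^ J' * (F.box w C g).x ω' i| ≤ 3 := k5
      linarith
    have k8 := Plk.floor_sub_lt k7
    have k9 : |(((zmF F w J' hJ' C g).X J' ω i - (zmF F w J' hJ' C g).X J' ω' i : ℤ) : ℝ)| ≤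
        M₂ := by
      refine le_trans k8 ?_
      linarith
    exact_mod_cast k9)
  refine ⟨B₂, hB2.trans hB1, ?_, fun ω ω' hω hω' hy => ?_⟩
  · have hn1 : (0 : ℝ) < ((M₁ + 1) ^ (m + m) : ℕ) := by positivity
    have hn2 : (0 : ℝ) < ((M₂ + 1) ^ m : ℕ) := by positivity
    calc Pe F.p A / (((M₁ + 1) ^ (m + m) * (M₂ + 1) ^ m : ℕ) : ℝ)
        = (Pe F.p A / ((M₁ + 1) ^ (m + m) : ℕ)) / ((M₂ + 1) ^ m : ℕ) := by
          rw [div_div]
          congr 1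
          push_cast
          ring
      _ ≤ Pe F.p B₁ / ((M₂ + 1) ^ m : ℕ) := div_le_div_of_nonneg_right hP1 hn2.le
      _ ≤ _ := hP2
  · have h1 := hF2 ω ω' hω hω' hy
    have h2 := (hlab ω ω' (hB2 ω hω) (hB2 ω' hω') hy).1
    have hW := Prod.ext_iff.1 (Prod.ext_iff.1 hy).2
    have hT : F.T ω = F.T ω' := hW.1
    refine Prod.ext h1 (Prod.ext ?_ h2)
    change F.T ω % 2 ^ (J - w) / 2 ^ (J - w - J') = F.T ω' % 2 ^ (J - w) / 2 ^ (J - w - J')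
    rw [hT]

end Zoom

end Pool.Agent.H60.ZCL
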